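import Pool.Agent.H14.PD.Stmts

set_option autoImplicit false

namespace Pool.Agent.H14.PD

theorem pd_deb : DEB := by
  intro X W _ Ph E hE R hR1 hR2 N w hw
  have h1 : ∀ g, E 1 g = 0 := by
    intro g
    have := hE 1 1 g
    rw [map_one, mul_one, mul_one] at this
    linarith
  have hinv : ∀ u g, E u⁻¹ (g * Ph u) = - E u g := by
    intro u g
    have := hE u u⁻¹ g
    rw [mul_inv_cancel, h1] at this
    linarith
  have hconj : ∀ x r, Ph r = 1 → E (x * r * x⁻¹) 1 = E r (Ph x) := by
    intro x r hr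
    rw [hE, hE]
    have := hinv x 1
    simp only [map_mul, hr, mul_one, one_mul] at this ⊢
    rw [this]
    ring
  obtain ⟨L, hL1, hL2, hL3⟩ := hw
  have key : ∀ L : List (FreeGroup X × FreeGroup X), (∀ p ∈ L, p.2 ∈ R ∨ p.2⁻¹ ∈ R) →
      Ph (L.map (fun p => p.1 * p.2 * p.1⁻¹)).prod = 1 ∧
      |E (L.map (fun p => p.1 * p.2 * p.1⁻¹)).prod 1| ≤ L.length := by
    intro L
    induction L with
    | nil => intro _; simp [h1]
    | cons p L ih =>
      intro hp
      have ih' := ih (fun q hq => hp q (List.mem_cons_of_mem _ hq))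
      have hp2 : Ph p.2 = 1 ∧ |E p.2 (Ph p.1)| ≤ 1 := by
        rcases hp p (by simp) with h | h
        · exact ⟨hR1 _ h, hR2 _ h _⟩
        · have e1 : Ph p.2⁻¹ = 1 := hR1 _ h
          have e2 := hR2 _ h p.1
          have e3 := hinv p.2⁻¹ (Ph p.1)
          rw [e1, mul_one, inv_inv] at e3
          refine ⟨?_, ?_⟩
          · rw [map_inv] at e1; exact inv_eq_one.mp e1
          · rw [e3, abs_neg]; exact e2
      rw [List.map_cons, List.prod_cons]
      have hPc : Ph (p.1 * p.2 * p.1⁻¹) = 1 := by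
        rw [map_mul, map_mul, hp2.1, mul_one, ← map_mul, mul_inv_cancel, map_one]
      refine ⟨?_, ?_⟩
      · rw [map_mul, hPc, ih'.1, mul_one]
      · rw [hE, hconj _ _ hp2.1, hPc, mul_one]
        have h3 := abs_add_le (E p.2 (Ph p.1)) (E (L.map (fun p => p.1 * p.2 * p.1⁻¹)).prod 1)
        have h4 := ih'.2
        have h5 := hp2.2
        have h6 : ((p :: L).length : ℤ) = L.length + 1 := by simp
        rw [h6]
        linarith
  have h := (key L hL1).2
  rw [hL2] at h
  have : (L.length : ℤ) ≤ N := by exact_mod_cast hL3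
  linarith

end Pool.Agent.H14.PD
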