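import Pool.Agent.H14.PD.Stmts

set_option autoImplicit false

namespace Pool.Agent.H14.PD

theorem pd_der : DER := by
  intro X W _ Ph dl
  let P : X → Equiv.Perm (W × ℤ) := fun x =>
    { toFun := fun p => (p.1 * Ph (FreeGroup.of x), p.2 + dl x p.1)
      invFun := fun p => (p.1 * (Ph (FreeGroup.of x))⁻¹, p.2 - dl x (p.1 * (Ph (FreeGroup.of x))⁻¹))
      left_inv := by
        intro p
        apply Prod.ext
        · simp
        · simp
      right_inv := by
        intro p
        apply Prod.ext
        · simp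
        · simp }
  let F : FreeGroup X →* (Equiv.Perm (W × ℤ))ᵐᵒᵖ :=
    FreeGroup.lift (fun x => MulOpposite.op (P x))
  have hF1 : ∀ p, (MulOpposite.unop (F 1)) p = p := by
    intro p; simp
  have hFm : ∀ u v p, (MulOpposite.unop (F (u * v))) p =
      (MulOpposite.unop (F v)) ((MulOpposite.unop (F u)) p) := by
    intro u v p
    rw [map_mul, MulOpposite.unop_mul, Equiv.Perm.mul_apply]
  have hFo : ∀ x p, (MulOpposite.unop (F (FreeGroup.of x))) p =
      (p.1 * Ph (FreeGroup.of x), p.2 + dl x p.1) := by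
    intro x p
    have : F (FreeGroup.of x) = MulOpposite.op (P x) := FreeGroup.lift_apply_of ..
    rw [this]
    rfl
  have hFi : ∀ x p, (MulOpposite.unop (F (FreeGroup.of x)⁻¹)) p =
      (p.1 * (Ph (FreeGroup.of x))⁻¹, p.2 - dl x (p.1 * (Ph (FreeGroup.of x))⁻¹)) := by
    intro x p
    have : F (FreeGroup.of x)⁻¹ = (MulOpposite.op (P x))⁻¹ := by
      rw [map_inv]
      congr 1
    rw [this]
    rfl
  have key : ∀ u : FreeGroup X, ∀ g n, (MulOpposite.unop (F u)) (g, n) =
      (g * Ph u, n + ((MulOpposite.unop (F u)) (g, 0)).2) := by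
    intro u
    refine FreeGroup.induction_on u ?_ ?_ ?_ ?_
    · intro g n; rw [hF1, hF1]; simp
    · intro x g n; rw [hFo, hFo]; simp
    · intro x _ g n
      show (MulOpposite.unop (F (FreeGroup.of x)⁻¹)) (g, n) = (g * Ph (FreeGroup.of x)⁻¹,
        n + ((MulOpposite.unop (F (FreeGroup.of x)⁻¹)) (g, 0)).2)
      rw [hFi, hFi, map_inv]
      apply Prod.ext
      · rfl
      · simp only; ring
    · intro u v hu hv g n
      rw [hFm, hFm, hu g n, hv, hu g 0]
      rw [hv (g * Ph u) (0 + _)]
      apply Prod.ext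
      · simp [mul_assoc]
      · simp; ring
  refine ⟨fun u g => ((MulOpposite.unop (F u)) (g, 0)).2, ?_, ?_, ?_⟩
  · intro g; simp [hF1]
  · intro u v g
    show ((MulOpposite.unop (F (u * v))) (g, 0)).2 = _
    rw [hFm, key u g 0, key v]
    simp
  · intro x g
    show ((MulOpposite.unop (F (FreeGroup.of x))) (g, 0)).2 = _
    rw [hFo]
    simp

end Pool.Agent.H14.PD
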