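import Pool.Agent.H14.PD.Stmts

set_option autoImplicit false

namespace Pool.Agent.H14.PD

theorem pd_ebd : M_EBD := by
  intro hPR hTR hTA hPH hSL hQS hPB hPSS hLI V S M b B E hb e1 e2 e3 r hr u
  obtain ⟨p1, p2, p3, p4, p5, p6⟩ := hPR S M.cm
  obtain ⟨s1, s2, s3, s4, s5, s6, s7, s8, s9⟩ := hSL V S M.toMc 0 b
  obtain ⟨t1, t2, t3, t4⟩ := hTR (V × ℤ) S (M.slab 0 b).lab M.lact
  obtain ⟨r1, r2, r3, r4⟩ := hTR V S M.lab M.act
  obtain ⟨a1, a2, a3, a4, a5, a6, a7⟩ := hTA (V × ℤ) S (M.slab 0 b) (M.o, 0)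
  obtain ⟨f1, f2, f3, f4⟩ := hPH (V × ℤ) S (M.slab 0 b) (M.o, 0)
  obtain ⟨l1, l2, l3⟩ := hLI V S M b B
  obtain ⟨q1, q2, q3⟩ := hPB V S M (lam M b B)
  have htr : ∀ y w, Tr (M.slab 0 b).lab M.lact y w → Tr M.lab M.act y.1 w := fun y w h =>
    (s3 y w).mp (s2 y w h)
  have htau : ∀ y, Tr M.lab M.act M.o ((M.slab 0 b).tau (M.o, 0) y) := fun y =>
    htr _ _ (a2 y)
  have htaue : ∀ y, (M.slab 0 b).Rc (M.o, 0) y →
      en M.act M.o ((M.slab 0 b).tau (M.o, 0) y) = y.1 := by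
    intro y hy
    have h1 := a3 y hy
    have h2 := s1 (M.o, 0) ((M.slab 0 b).tau (M.o, 0) y)
    have h3 : en M.lact (M.o, 0) ((M.slab 0 b).tau (M.o, 0) y) = y := h1
    rw [h3] at h2
    exact h2.symm
  -- closed words at a reachable vertex
  have hclosed : ∀ y w, (M.slab 0 b).Rc (M.o, 0) y → Tr (M.slab 0 b).lab M.lact y w →
      en M.lact y w = y → pr M.cm w = 1 → ∀ g, E (wd M.lact y w) g =
        psum M (lam M b B) (g * pr M.cm ((M.slab 0 b).tau (M.o, 0) y)) y.1 w := by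
    intro y w hy hw hen hpw g
    have h1 := htaue y hy
    rw [e2 y w g hy hw, hen, List.append_assoc, q1 g M.o, h1, q1 _ y.1 w, hpw, mul_one]
    have h2 := q2 g M.o ((M.slab 0 b).tau (M.o, 0) y) (htau y)
    rw [q1 g M.o, h1] at h2
    have h3 : en M.act y.1 w = y.1 := by
      have := s1 y w
      rw [hen] at this
      exact this.symm
    rw [h3]
    linarith
  rcases hr with ⟨y, s, hn, rfl⟩ | ⟨y, s, hy, hs, rfl⟩ | ⟨y, s, t, hy, hc, hsq, hen, rfl⟩ |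
    ⟨y, hy, rfl⟩
  · rw [e3 y s _ hn]; simp
  · have hls := (M.slab 0 b).inv y s hs
    have h1 : en M.lact y [s, s] = y := hls.2
    have h2 : E (wd M.lact y [s, s]) (M.sPhi 0 b (M.o, 0) u) = _ :=
      hclosed y [s, s] hy ⟨hs, hls.1, trivial⟩ h1 (by rw [p2, p2, p1, mul_one, p4]) _
    have h3 := q2 (M.sPhi 0 b (M.o, 0) u * pr M.cm ((M.slab 0 b).tau (M.o, 0) y)) y.1 [s]
      ⟨hs.1, trivial⟩
    have h4 : [s] ++ [s].reverse = [s, s] := rfl
    rw [h4] at h3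
    have h5 : |E (wd (M.slab 0 b).act y [s, s]) (M.sPhi 0 b (M.o, 0) u)| =
      |E (wd M.lact y [s, s]) (M.sPhi 0 b (M.o, 0) u)| := rfl
    rw [h5, h2, h3]
    simp
  · have hst := p5 s t hc
    have hpr1 : pr M.cm [s, t, s, t] = 1 := by
      rw [p2, p2, p2, p2, p1, mul_one]
      calc io M.cm s * (io M.cm t * (io M.cm s * io M.cm t))
          = (io M.cm s * io M.cm t) * (io M.cm s * io M.cm t) := by group
        _ = (io M.cm s * io M.cm t) * (io M.cm t * io M.cm s) := by rw [← hst]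
        _ = io M.cm s * (io M.cm t * io M.cm t) * io M.cm s := by group
        _ = 1 := by rw [p4, mul_one, p4]
    have h2 : E (wd M.lact y [s, t, s, t]) (M.sPhi 0 b (M.o, 0) u) = _ :=
      hclosed y [s, t, s, t] hy hsq hen hpr1 _
    have h5 : |E (wd (M.slab 0 b).act y [s, t, s, t]) (M.sPhi 0 b (M.o, 0) u)| =
      |E (wd M.lact y [s, t, s, t]) (M.sPhi 0 b (M.o, 0) u)| := rfl
    rw [h5, h2]
    obtain ⟨c, hc1, hc2, hc3⟩ := f4 u
    have hc3' : M.sPhi 0 b (M.o, 0) u = pr M.cm c := hc3.symm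
    have hSlc : M.Sl 0 b (M.o, 0) c := ⟨⟨le_refl _, hb⟩, hc1⟩
    have hc2' : en M.lact (M.o, 0) c = (M.o, 0) := hc2
    have hSlt : M.Sl 0 b (M.o, 0) ((M.slab 0 b).tau (M.o, 0) y) := ⟨⟨le_refl _, hb⟩, a2 y⟩
    have hen3 : en M.lact (M.o, 0) ((M.slab 0 b).tau (M.o, 0) y) = y := a3 y hy
    have hSlct : M.Sl 0 b (M.o, 0) (c ++ (M.slab 0 b).tau (M.o, 0) y) :=
      (s6 _ _ _).mpr ⟨hSlc, by rw [hc2']; exact hSlt⟩
    have henct : en M.lact (M.o, 0) (c ++ (M.slab 0 b).tau (M.o, 0) y) = y := by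
      rw [t2, hc2', hen3]
    have hy2 : (0 : ℤ) ≤ y.2 ∧ y.2 ≤ b := by
      have := s7 _ _ hSlct
      rw [henct] at this
      exact this
    apply hPSS V S M (lam M b B) _ y.1 s t hc (htr _ _ hsq)
    have hq := (hQS (V × ℤ) S (M.slab 0 b) (Multiplicative ℤ) 1 (fun r _ => rfl)).2.1 y s t hc hsq hen
    obtain ⟨l1', l2', l3', l4', -⟩ := hsq
    have hyt : (M.slab 0 b).lab y t := hq.1.1
    have hyts : (M.slab 0 b).lab (M.lact y t) s := hq.1.2.1
    have gen : ∀ (v : List S) (x : S), Tr (M.slab 0 b).lab M.lact y (v ++ [x]) → ¬ M.big x →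
        |lam M b B (M.sPhi 0 b (M.o, 0) u * pr M.cm ((M.slab 0 b).tau (M.o, 0) y) * pr M.cm v *
          io M.cm x) - lam M b B (M.sPhi 0 b (M.o, 0) u *
          pr M.cm ((M.slab 0 b).tau (M.o, 0) y) * pr M.cm v)| ≤ 1 := by
      intro v x hv hx
      have h := l3 (c ++ (M.slab 0 b).tau (M.o, 0) y ++ v) x (by
        rw [List.append_assoc]
        refine (s6 _ _ _).mpr ⟨hSlct, ?_⟩
        rw [henct]
        exact ⟨hy2, hv⟩) hx
      rw [p3, p3] at h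
      rw [hc3']
      exact h
    intro v hv x hx hbx
    simp only [List.mem_cons, List.not_mem_nil, or_false] at hv hx
    apply gen v x _ hbx
    rcases hv with rfl | rfl | rfl | rfl <;> rcases hx with rfl | rfl
    · exact ⟨l1', trivial⟩
    · exact ⟨hyt, trivial⟩
    · exact ⟨l1', ((M.slab 0 b).inv _ _ l1').1, trivial⟩
    · exact ⟨l1', l2', trivial⟩
    · exact ⟨hyt, hyts, trivial⟩
    · exact ⟨hyt, ((M.slab 0 b).inv _ _ hyt).1, trivial⟩
    · exact ⟨l1', l2', l3', trivial⟩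
    · exact ⟨l1', l2', ((M.slab 0 b).inv _ _ l2').1, trivial⟩
  · have h5 : |E (wd (M.slab 0 b).act (M.o, 0) ((M.slab 0 b).tau (M.o, 0) y))
        (M.sPhi 0 b (M.o, 0) u)| =
      |E (wd M.lact (M.o, 0) ((M.slab 0 b).tau (M.o, 0) y)) (M.sPhi 0 b (M.o, 0) u)| := rfl
    have hen3 : en M.lact (M.o, 0) ((M.slab 0 b).tau (M.o, 0) y) = y := a3 y hy
    rw [h5, e2 (M.o, 0) _ _ a4 (a2 y), hen3, a1, List.nil_append, q2 _ _ _ (htau y)]
    simp

end Pool.Agent.H14.PD
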