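import Pool.Agent.H14.PD.Stmts

set_option autoImplicit false

namespace Pool.Agent.H14.PD

theorem pd_lip : M_LIP := by
  intro hPR hTR hTC hSL V S M b B
  obtain ⟨p1, p2, p3, p4, p5, p6⟩ := hPR S M.cm
  obtain ⟨c1, c2, c3, c4⟩ := hTC (V × ℤ) S M.lf
  obtain ⟨s1, s2, s3, s4, s5, s6, s7, s8, s9⟩ := hSL V S M.toMc 0 b
  let A : Wg M.cm → Set ℕ := fun g => {n : ℕ | n = B ∨ ∃ u : List S, M.Sl 0 b (M.o, 0) u ∧
    (∀ s ∈ u, ¬ M.big s) ∧ pr M.cm u = g ∧ u.length = n}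
  have hlam : ∀ g, lam M b B g = ((sInf (A g) : ℕ) : ℤ) := fun g => rfl
  have hne : ∀ g, (A g).Nonempty := fun g => ⟨B, Or.inl rfl⟩
  have hB : ∀ g, sInf (A g) ≤ B := fun g => Nat.sInf_le (Or.inl rfl)
  have key : ∀ w s, M.Sl 0 b (M.o, 0) (w ++ [s]) → ¬ M.big s →
      sInf (A (pr M.cm w * io M.cm s)) ≤ sInf (A (pr M.cm w)) + 1 := by
    intro w s hw hs
    rcases Nat.sInf_mem (hne (pr M.cm w)) with h | ⟨u, hu1, hu2, hu3, hu4⟩
    · have := hB (pr M.cm w * io M.cm s)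
      omega
    · rw [← hu4]
      apply Nat.sInf_le
      right
      have hw' := (s6 (M.o, 0) w [s]).mp hw
      have hen : en M.lact (M.o, 0) u = en M.lact (M.o, 0) w :=
        c4 (M.o, 0) u w (s2 _ _ hu1.2) (s2 _ _ hw'.1.2) hu3
      refine ⟨u ++ [s], (s6 _ _ _).mpr ⟨hu1, ?_⟩, ?_, ?_, ?_⟩
      · rw [hen]; exact hw'.2
      · intro t ht
        rcases List.mem_append.mp ht with h | h
        · exact hu2 t h
        · rw [List.mem_singleton.mp h]; exact hs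
      · rw [p3, p2, p1, mul_one, hu3]
      · simp
  refine ⟨fun g => ⟨?_, ?_⟩, ?_, ?_⟩
  · rw [hlam]; positivity
  · rw [hlam]; exact_mod_cast hB g
  · intro hb
    rw [hlam]
    have : sInf (A 1) ≤ 0 := by
      apply Nat.sInf_le
      right
      exact ⟨[], ⟨⟨le_refl _, hb⟩, trivial⟩, by simp, p1, rfl⟩
    have h0 : sInf (A 1) = 0 := by omega
    rw [h0]; rfl
  · intro w s hw hs
    rw [hlam, hlam]
    have k1 := key w s hw hs
    have hw' := (s6 (M.o, 0) w [s]).mp hw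
    have hls : (M.slab 0 b).lab (en M.lact (M.o, 0) w) s := hw'.2.2.1
    have hls2 := (M.slab 0 b).inv _ _ hls
    have k2 := key (w ++ [s]) s ((s6 _ _ _).mpr ⟨hw, ⟨?_, ?_⟩⟩) hs
    · rw [p3, p2, p1, mul_one, mul_assoc, p4, mul_one] at k2
      rw [abs_le]
      constructor <;> · push_cast; omega
    · exact s7 _ _ hw
    · have hen : en M.lact (M.o, 0) (w ++ [s]) = M.lact (en M.lact (M.o, 0) w) s :=
        (hTR (V × ℤ) S M.lf.lab M.lact).2.1 _ _ _
      rw [hen]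
      exact ⟨hls2.1, trivial⟩

end Pool.Agent.H14.PD
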