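import Pool.Agent.H14.PD.Stmts

set_option autoImplicit false

namespace Pool.Agent.H14.PD

theorem pd_low : M_LOW := by
  intro hPR hTR hTC hTA hPH hSL hDB hPB hPO hEW hEB V S M b B al be N hb hal hbe hpr hY hsp hside hAr
  obtain ⟨p1, p2, p3, p4, p5, p6⟩ := hPR S M.cm
  obtain ⟨c1, c2, c3, c4⟩ := hTC (V × ℤ) S M.lf
  obtain ⟨s1, s2, s3, s4, s5, s6, s7, s8, s9⟩ := hSL V S M.toMc 0 b
  obtain ⟨a1, a2, a3, a4, a5, a6, a7⟩ := hTA (V × ℤ) S (M.slab 0 b) (M.o, 0)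
  obtain ⟨f1, f2, f3, f4⟩ := hPH (V × ℤ) S (M.slab 0 b) (M.o, 0)
  obtain ⟨q1, q2, q3⟩ := hPB V S M (lam M b B)
  obtain ⟨E, e1, e2, e3⟩ := hEW V S M b (lam M b B)
  have hbd := hEB V S M b B E hb e1 e2 e3
  have h0 : |E (wd M.lact (M.o, 0) al * (wd M.lact (M.o, 0) be)⁻¹) 1| ≤ N :=
    hDB _ _ (M.sPhi 0 b (M.o, 0)) E e1 _ (fun r hr => f2 r hr) hbd N _ hAr
  have hE1 : ∀ g, E 1 g = 0 := by
    intro g
    have := e1 1 1 g
    rw [map_one, mul_one, mul_one] at this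
    linarith
  have hinv : ∀ u g, E u⁻¹ (g * M.sPhi 0 b (M.o, 0) u) = - E u g := by
    intro u g
    have := e1 u u⁻¹ g
    rw [mul_inv_cancel, hE1] at this
    linarith
  have hend : en M.lact (M.o, 0) al = en M.lact (M.o, 0) be :=
    c4 (M.o, 0) al be (s2 _ _ hal.2) (s2 _ _ hbe.2) hpr
  have hPa : M.sPhi 0 b (M.o, 0) (wd M.lact (M.o, 0) al) =
      pr M.cm ((M.slab 0 b).tau (M.o, 0) (M.o, 0)) * pr M.cm al *
        (pr M.cm ((M.slab 0 b).tau (M.o, 0) (en M.lact (M.o, 0) al)))⁻¹ :=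
    f1 (M.o, 0) al a4 hal.2
  have hPb : M.sPhi 0 b (M.o, 0) (wd M.lact (M.o, 0) be) =
      pr M.cm ((M.slab 0 b).tau (M.o, 0) (M.o, 0)) * pr M.cm be *
        (pr M.cm ((M.slab 0 b).tau (M.o, 0) (en M.lact (M.o, 0) be)))⁻¹ :=
    f1 (M.o, 0) be a4 hbe.2
  have hPab : M.sPhi 0 b (M.o, 0) (wd M.lact (M.o, 0) al) =
      M.sPhi 0 b (M.o, 0) (wd M.lact (M.o, 0) be) := by
    rw [hPa, hPb, hpr, hend]
  rw [e1, hPab, hinv, e2 (M.o, 0) al 1 a4 hal.2, e2 (M.o, 0) be 1 a4 hbe.2, a1] at h0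
  simp only [List.nil_append] at h0
  rw [q1, q1 1 M.o be] at h0
  have hen2 : en M.act M.o al = en M.act M.o be := by
    have h1 := s1 (M.o, 0) al
    have h2 := s1 (M.o, 0) be
    rw [hend, h2] at h1
    exact h1.symm
  rw [hen2, hend, hpr, q3 1 M.o al hsp] at h0
  have h1 := (hPO V S M b B be hb hbe hside).1 hY
  have h2 : |psum M (lam M b B) 1 M.o be| ≤ N := by
    rw [← abs_neg]
    refine le_of_eq_of_le ?_ h0
    congr 1
    ring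
  rw [abs_le] at h1 h2
  linarith [h1.1, h1.2, h2.1, h2.2]

end Pool.Agent.H14.PD
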