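import Pool.Agent.H14.PD.Stmts

set_option autoImplicit false

namespace Pool.Agent.H14.PD

theorem pd_mee : M_MEE := by
  intro hTQ hRB hRT S cm hsy hir
  obtain ⟨tsym, tinf, tperm, trev, tpr, tmv, tcm⟩ := hTQ S cm hsy
  obtain ⟨rinf, rrev, rneg, rone⟩ := hRB S cm
  have rt := hRT S cm hsy hir
  have key : ∀ n : ℕ, ∀ y z : List S, y.length = n → Rd cm y → Rd cm z → ∃ m y' z' : List S,
      Tq cm y (m ++ y') ∧ Tq cm z (m ++ z') ∧ Rd cm (y'.reverse ++ z') := by
    intro n
    induction n with
    | zero =>
      intro y z hy hRy hRz
      have hy0 : y = [] := List.length_eq_zero_iff.mp hy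
      subst hy0
      exact ⟨[], [], z, Relation.ReflTransGen.refl, Relation.ReflTransGen.refl, by simpa using hRz⟩
    | succ n ih =>
      intro y z hy hRy hRz
      by_cases h : Rd cm (y.reverse ++ z)
      · exact ⟨[], y, z, Relation.ReflTransGen.refl, Relation.ReflTransGen.refl, h⟩
      · obtain ⟨a, u, b, s, he, hu⟩ := rneg _ h
        have hsplit : ∃ u1 u2, u = u1 ++ u2 ∧ y.reverse = a ++ s :: u1 ∧ z = u2 ++ s :: b := by
          rcases List.append_eq_append_iff.mp he with ⟨as, h1, h2⟩ | ⟨bs, h1, h2⟩
          · exfalso
            obtain ⟨t, ht, hnt⟩ := hRz as u b s h2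
            exact hnt (hu t ht)
          · rcases bs with _ | ⟨c, u1⟩
            · exfalso
              obtain ⟨t, ht, hnt⟩ := hRz [] u b s (by simpa using h2.symm)
              exact hnt (hu t ht)
            · rw [List.cons_append] at h2
              obtain ⟨hc, h3⟩ := List.cons.inj h2
              subst hc
              rcases List.append_eq_append_iff.mp h3 with ⟨as, h4, h5⟩ | ⟨bs', h4, h5⟩
              · rcases as with _ | ⟨c, as'⟩
                · exact ⟨u1, [], by simpa using h4.symm, h1, by simpa using h5.symm⟩
                · rw [List.cons_append] at h5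
                  obtain ⟨hc, h6⟩ := List.cons.inj h5
                  subst hc
                  exfalso
                  obtain ⟨t, ht, hnt⟩ := rrev _ hRy a u as' s (by rw [h1, h4])
                  exact hnt (hu t ht)
              · exact ⟨u1, bs', h4, h1, h5⟩
        obtain ⟨u1, u2, hu12, hyr, hz⟩ := hsplit
        have hyy : y = u1.reverse ++ s :: a.reverse := by
          have := congrArg List.reverse hyr
          simpa using this
        have hcy : ∀ t ∈ u1.reverse, cm s t := fun t ht => hu t (by
          rw [hu12]; exact List.mem_append_left _ (List.mem_reverse.mp ht))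
        have hcz : ∀ t ∈ u2, cm s t := fun t ht => hu t (by
          rw [hu12]; exact List.mem_append_right _ ht)
        have hTy : Tq cm y (s :: (u1.reverse ++ a.reverse)) := by
          have h1 := tinf _ _ [] a.reverse (tmv s u1.reverse hcy)
          have h2 := tsym _ _ h1
          rw [hyy]
          simpa using h2
        have hTz : Tq cm z (s :: (u2 ++ b)) := by
          have h1 := tinf _ _ [] b (tmv s u2 hcz)
          have h2 := tsym _ _ h1
          rw [hz]
          simpa using h2
        have hR1 : Rd cm (u1.reverse ++ a.reverse) := by
          have h1 := rt _ _ hTy hRy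
          apply rinf [s] _ []
          simpa using h1
        have hR2 : Rd cm (u2 ++ b) := by
          have h1 := rt _ _ hTz hRz
          apply rinf [s] _ []
          simpa using h1
        have hlen : (u1.reverse ++ a.reverse).length = n := by
          have h1 : y.length = n + 1 := hy
          rw [hyy] at h1
          simp only [List.length_append, List.length_cons, List.length_reverse] at h1 ⊢
          omega
        obtain ⟨m, y', z', k1, k2, k3⟩ := ih _ _ hlen hR1 hR2
        refine ⟨s :: m, y', z', hTy.trans ?_, hTz.trans ?_, k3⟩
        · have := tinf _ _ [s] [] k1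
          show Tq cm _ _
          simpa using this
        · have := tinf _ _ [s] [] k2
          show Tq cm _ _
          simpa using this
  intro y z hy hz
  exact key _ y z rfl hy hz

end Pool.Agent.H14.PD
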