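import Pool.Agent.H14.PD.Stmts

set_option autoImplicit false

namespace Pool.Agent.H14.PD

open Classical in
theorem pd_pot : M_POT := by
  intro hPR hTR hSL hLI hPB V S M b B w hb
  obtain ⟨p1, p2, p3, p4, p5, p6⟩ := hPR S M.cm
  obtain ⟨s1, s2, s3, s4, s5, s6, s7, s8, s9⟩ := hSL V S M.toMc 0 b
  obtain ⟨l1, l2, l3⟩ := hLI V S M b B
  obtain ⟨q1, q2, q3⟩ := hPB V S M (lam M b B)
  have hen := (hTR V S M.lab M.act).2.1
  induction w using List.reverseRecOn with
  | nil =>
    intro _ _
    have h1 : psum M (lam M b B) 1 M.o [] = 0 := rfl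
    refine ⟨fun _ => ?_, fun _ => ?_⟩
    · rw [h1, p1, l2 hb]; simp
    · rw [h1]; simp
  | append_singleton w s ih =>
    intro hw hside
    have hw' := (s6 (M.o, 0) w [s]).mp hw
    have ih' := ih hw'.1 (fun t ht => hside t (List.mem_append_left _ ht))
    have hlab : M.lab (en M.act M.o w) s := by
      have h1 : (M.slab 0 b).lab (en M.lact (M.o, 0) w) s := hw'.2.2.1
      have h2 := h1.1
      rw [s1] at h2
      exact h2
    have hpw : psum M (lam M b B) 1 M.o (w ++ [s]) = psum M (lam M b B) 1 M.o w +
        psum M (lam M b B) (pr M.cm w) (en M.act M.o w) [s] := by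
      rw [q1, one_mul]
    have hps : psum M (lam M b B) (pr M.cm w) (en M.act M.o w) [s] =
        (if M.sp s then (if M.Yv (en M.act M.o w) then lam M b B (pr M.cm w)
          else - lam M b B (pr M.cm w * io M.cm s)) else 0) := by
      simp [psum]
    have he : en M.act M.o (w ++ [s]) = M.act (en M.act M.o w) s := by
      rw [hen]; rfl
    have hprw : pr M.cm (w ++ [s]) = pr M.cm w * io M.cm s := by
      rw [p3, p2, p1, mul_one]
    have hl : ((w ++ [s]).length : ℤ) = w.length + 1 := by simp
    rw [hpw, hps, he, hprw, hl]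
    by_cases hbig : M.big s
    · have hsd := hside s (List.mem_append_right _ (List.mem_singleton.mpr rfl)) hbig
      by_cases hsp : M.sp s
      · have hY := M.Y_sp _ s hlab hsp
        rw [if_pos hsp]
        by_cases hYx : M.Yv (en M.act M.o w)
        · rw [if_pos hYx]
          refine ⟨fun h => absurd hYx (hY.mp h), fun _ => ?_⟩
          have := ih'.1 hYx
          linarith
        · rw [if_neg hYx]
          refine ⟨fun _ => ?_, fun h => absurd (hY.mpr hYx) h⟩
          have := ih'.2 hYx
          rw [show psum M (lam M b B) 1 M.o w + -lam M b B (pr M.cm w * io M.cm s) +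
            lam M b B (pr M.cm w * io M.cm s) = psum M (lam M b B) 1 M.o w by ring]
          linarith
      · have hY := M.Y_bt _ s hlab hbig hsd hsp
        rw [if_neg hsp]
        refine ⟨fun h => absurd h hY.2, fun _ => ?_⟩
        have := ih'.2 hY.1
        rw [add_zero]
        linarith
    · have hsp : ¬ M.sp s := fun h => hbig (M.sp_big s h)
      have hY := M.Y_small _ s hlab hbig
      rw [if_neg hsp, add_zero]
      refine ⟨fun h => ?_, fun h => ?_⟩
      · have h1 := ih'.1 (hY.mp h)
        have h2 := l3 w s hw hbig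
        rw [abs_le] at h1 h2 ⊢
        constructor <;> linarith [h1.1, h1.2, h2.1, h2.2]
      · have h1 := ih'.2 (fun h' => h (hY.mpr h'))
        linarith

end Pool.Agent.H14.PD
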