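import Pool.Agent.H14.PD.Stmts

set_option autoImplicit false

namespace Pool.Agent.H14.PD

open Classical in
theorem pd_psb : M_PSB := by
  intro hPR hTR V S M lm
  obtain ⟨p1, p2, p3, p4, p5, p6⟩ := hPR S M.cm
  obtain ⟨t1, t2, t3, t4⟩ := hTR V S M.lab M.act
  have tinv := t4 M.inv
  have hadd : ∀ g x u v, psum M lm g x (u ++ v) =
      psum M lm g x u + psum M lm (g * pr M.cm u) (en M.act x u) v := by
    intro g x u v
    induction u generalizing g x with
    | nil =>
      have h1 : psum M lm g x [] = 0 := rfl
      have h2 : en M.act x [] = x := rfl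
      rw [h1, h2, p1, mul_one, List.nil_append, zero_add]
    | cons s u ih =>
      have h1 : psum M lm g x (s :: u) =
        (if M.sp s then (if M.Yv x then lm g else - lm (g * io M.cm s)) else 0) +
          psum M lm (g * io M.cm s) (M.act x s) u := rfl
      have h2 : psum M lm g x (s :: u ++ v) =
        (if M.sp s then (if M.Yv x then lm g else - lm (g * io M.cm s)) else 0) +
          psum M lm (g * io M.cm s) (M.act x s) (u ++ v) := rfl
      have h3 : en M.act x (s :: u) = en M.act (M.act x s) u := rfl
      rw [h1, h2, h3, ih, p2]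
      rw [mul_assoc]
      ring
  refine ⟨hadd, ?_, ?_⟩
  · intro g x w
    induction w generalizing g x with
    | nil => intro _; rfl
    | cons s w ih =>
      intro hw
      have hw' : M.lab x s ∧ Tr M.lab M.act (M.act x s) w := hw
      have e1 : (s :: w) ++ (s :: w).reverse = s :: ((w ++ w.reverse) ++ [s]) := by simp
      have h2 : psum M lm g x (s :: ((w ++ w.reverse) ++ [s])) =
        (if M.sp s then (if M.Yv x then lm g else - lm (g * io M.cm s)) else 0) +
          psum M lm (g * io M.cm s) (M.act x s) ((w ++ w.reverse) ++ [s]) := rfl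
      have h3 : ∀ g' x', psum M lm g' x' [s] =
        (if M.sp s then (if M.Yv x' then lm g' else - lm (g' * io M.cm s)) else 0) := by
        intro g' x'
        simp [psum]
      rw [e1, h2, hadd, ih _ _ hw'.2, p3, p6, mul_inv_cancel, mul_one, t2]
      rw [(tinv _ _ hw'.2).2, h3, zero_add]
      by_cases hs : M.sp s
      · rw [if_pos hs, if_pos hs]
        have hY := M.Y_sp x s hw'.1 hs
        by_cases hx : M.Yv x
        · rw [if_pos hx, if_neg (fun h => (hY.mp h) hx), mul_assoc, p4, mul_one]
          ring
        · rw [if_neg hx, if_pos (hY.mpr hx)]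
          ring
      · rw [if_neg hs, if_neg hs]; ring
  · intro g x w hw
    induction w generalizing g x with
    | nil => rfl
    | cons s w ih =>
      have h2 : psum M lm g x (s :: w) =
        (if M.sp s then (if M.Yv x then lm g else - lm (g * io M.cm s)) else 0) +
          psum M lm (g * io M.cm s) (M.act x s) w := rfl
      rw [h2, if_neg (hw s (by simp)), ih _ _ (fun t ht => hw t (List.mem_cons_of_mem _ ht))]
      ring

end Pool.Agent.H14.PD
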