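import Pool.Agent.H14.PD.Stmts

set_option autoImplicit false

namespace Pool.Agent.H14.PD

open Classical in
theorem pd_pss : M_PSS := by
  intro hPR V S M lm g x s t hc htr hl
  obtain ⟨p1, p2, p3, p4, p5, p6⟩ := hPR S M.cm
  obtain ⟨l1, l2, l3, l4, -⟩ := htr
  have hst := p5 s t hc
  have hps : psum M lm g x [s, t, s, t] =
      (if M.sp s then (if M.Yv x then lm g else - lm (g * io M.cm s)) else 0) +
      ((if M.sp t then (if M.Yv (M.act x s) then lm (g * io M.cm s) else
        - lm (g * io M.cm s * io M.cm t)) else 0) +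
      ((if M.sp s then (if M.Yv (M.act (M.act x s) t) then lm (g * io M.cm s * io M.cm t) else
        - lm (g * io M.cm s * io M.cm t * io M.cm s)) else 0) +
      ((if M.sp t then (if M.Yv (M.act (M.act (M.act x s) t) s) then
        lm (g * io M.cm s * io M.cm t * io M.cm s) else
        - lm (g * io M.cm s * io M.cm t * io M.cm s * io M.cm t)) else 0) + 0))) := rfl
  rw [hps]
  have e1 : g * io M.cm s * io M.cm t * io M.cm s = g * io M.cm t := by
    rw [mul_assoc g, hst, ← mul_assoc, mul_assoc, p4, mul_one]
  have e2 : g * io M.cm s * io M.cm t * io M.cm s * io M.cm t = g := by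
    rw [e1, mul_assoc, p4, mul_one]
  by_cases hs : M.sp s
  · have hbs := M.sp_big s hs
    have hbt : ¬ M.big t := fun h => M.big_cm s t hbs h hc
    have ht : ¬ M.sp t := fun h => hbt (M.sp_big t h)
    have Y1 := M.Y_sp x s l1 hs
    have Y2 := M.Y_small _ t l2 hbt
    rw [if_pos hs, if_neg ht, if_pos hs, if_neg ht]
    by_cases hx : M.Yv x
    · have hx2 : ¬ M.Yv (M.act (M.act x s) t) := fun h => (Y1.mp (Y2.mp h)) hx
      rw [if_pos hx, if_neg hx2, e1]
      have := hl [] (by simp) t (by simp) hbt
      rw [p1, mul_one] at this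
      rw [abs_sub_comm] at this
      rw [show lm g + (0 + (-lm (g * io M.cm t) + (0 + 0))) = lm g - lm (g * io M.cm t) by ring]
      exact this
    · have hx2 : M.Yv (M.act (M.act x s) t) := Y2.mpr (Y1.mpr hx)
      rw [if_neg hx, if_pos hx2]
      have := hl [s] (by simp) t (by simp) hbt
      rw [p2, p1, mul_one] at this
      rw [show -lm (g * io M.cm s) + (0 + (lm (g * io M.cm s * io M.cm t) + (0 + 0))) =
        lm (g * io M.cm s * io M.cm t) - lm (g * io M.cm s) by ring]
      exact this
  · by_cases ht : M.sp t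
    · have hbt := M.sp_big t ht
      have hbs : ¬ M.big s := fun h => M.big_cm s t h hbt hc
      have Y1 := M.Y_sp _ t l2 ht
      have Y2 := M.Y_small _ s l3 hbs
      rw [if_neg hs, if_pos ht, if_neg hs, if_pos ht]
      by_cases hx : M.Yv (M.act x s)
      · have hx2 : ¬ M.Yv (M.act (M.act (M.act x s) t) s) := fun h => (Y1.mp (Y2.mp h)) hx
        rw [if_pos hx, if_neg hx2, e2]
        have := hl [] (by simp) s (by simp) hbs
        rw [p1, mul_one] at this
        rw [show 0 + (lm (g * io M.cm s) + (0 + (-lm g + 0))) = lm (g * io M.cm s) - lm g by ring]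
        exact this
      · have hx2 : M.Yv (M.act (M.act (M.act x s) t) s) := Y2.mpr (Y1.mpr hx)
        rw [if_neg hx, if_pos hx2]
        have := hl [s, t] (by simp) s (by simp) hbs
        rw [p2, p2, p1, mul_one, ← mul_assoc] at this
        rw [show 0 + (-lm (g * io M.cm s * io M.cm t) +
          (0 + (lm (g * io M.cm s * io M.cm t * io M.cm s) + 0))) =
          lm (g * io M.cm s * io M.cm t * io M.cm s) - lm (g * io M.cm s * io M.cm t) by ring]
        exact this
    · rw [if_neg hs, if_neg ht, if_neg hs, if_neg ht]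
      simp

end Pool.Agent.H14.PD
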