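import Pool.Agent.H14.PD.Stmts

set_option autoImplicit false

namespace Pool.Agent.H14.PD

open Classical in
theorem pd_ewd : M_EWD := by
  intro hPR hTR hTA hSL hDE hPB V S M b lm
  obtain ⟨p1, p2, p3, p4, p5, p6⟩ := hPR S M.cm
  obtain ⟨s1, s2, s3, s4, s5, s6, s7, s8, s9⟩ := hSL V S M.toMc 0 b
  obtain ⟨t1, t2, t3, t4⟩ := hTR (V × ℤ) S (M.slab 0 b).lab M.lact
  obtain ⟨r1, r2, r3, r4⟩ := hTR V S M.lab M.act
  obtain ⟨a1, a2, a3, a4, a5, a6, a7⟩ := hTA (V × ℤ) S (M.slab 0 b) (M.o, 0)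
  obtain ⟨q1, q2, q3⟩ := hPB V S M lm
  obtain ⟨E, e1, e2, e3⟩ := hDE ((V × ℤ) × S) (Wg M.cm) (M.sPhi 0 b (M.o, 0))
    (fun p g => if (M.slab 0 b).Rc (M.o, 0) p.1 ∧ (M.slab 0 b).lab p.1 p.2 then
      psum M lm g M.o ((M.slab 0 b).tau (M.o, 0) p.1 ++ [p.2] ++
        ((M.slab 0 b).tau (M.o, 0) (M.lact p.1 p.2)).reverse) else 0)
  -- traced words in M
  have htr : ∀ y w, Tr (M.slab 0 b).lab M.lact y w → Tr M.lab M.act y.1 w := fun y w h =>
    (s3 y w).mp (s2 y w h)
  have htau : ∀ y, Tr M.lab M.act M.o ((M.slab 0 b).tau (M.o, 0) y) := fun y =>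
    htr _ _ (a2 y)
  have htaue : ∀ y, (M.slab 0 b).Rc (M.o, 0) y →
      en M.act M.o ((M.slab 0 b).tau (M.o, 0) y) = y.1 := by
    intro y hy
    have h1 := a3 y hy
    have h2 := s1 (M.o, 0) ((M.slab 0 b).tau (M.o, 0) y)
    have h3 : en M.lact (M.o, 0) ((M.slab 0 b).tau (M.o, 0) y) = y := h1
    rw [h3] at h2
    exact h2.symm
  have hPhi : ∀ y s, (M.slab 0 b).Rc (M.o, 0) y ∧ (M.slab 0 b).lab y s →
      M.sPhi 0 b (M.o, 0) (FreeGroup.of (y, s)) =
      pr M.cm ((M.slab 0 b).tau (M.o, 0) y) * io M.cm s *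
        (pr M.cm ((M.slab 0 b).tau (M.o, 0) (M.lact y s)))⁻¹ := by
    intro y s h
    have h1 : M.sPhi 0 b (M.o, 0) (FreeGroup.of (y, s)) =
      (if (M.slab 0 b).Rc (M.o, 0) y ∧ (M.slab 0 b).lab y s then
        pr (M.slab 0 b).cm ((M.slab 0 b).tau (M.o, 0) y) * io (M.slab 0 b).cm s *
        (pr (M.slab 0 b).cm ((M.slab 0 b).tau (M.o, 0) ((M.slab 0 b).act y s)))⁻¹ else 1) :=
      FreeGroup.lift_apply_of ..
    rw [h1, if_pos h]
    rfl
  refine ⟨E, e2, ?_, ?_⟩
  · intro y w
    induction w generalizing y with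
    | nil =>
      intro g hy _
      have h1 : wd M.lact y [] = 1 := rfl
      have h2 : en M.lact y [] = y := rfl
      rw [h1, h2, e1, List.append_nil, q2 _ _ _ (htau y)]
    | cons s w ih =>
      intro g hy hw
      have hw' : (M.slab 0 b).lab y s ∧ Tr (M.slab 0 b).lab M.lact (M.lact y s) w := hw
      have hy' : (M.slab 0 b).Rc (M.o, 0) (M.lact y s) :=
        a5 y [s] hy ⟨hw'.1, trivial⟩
      have h1 : wd M.lact y (s :: w) = FreeGroup.of (y, s) * wd M.lact (M.lact y s) w := rfl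
      have h2 : en M.lact y (s :: w) = en M.lact (M.lact y s) w := rfl
      rw [h1, h2, e2, e3, ih _ _ hy' hw'.2, hPhi y s ⟨hy, hw'.1⟩]
      simp only
      rw [if_pos ⟨hy, hw'.1⟩]
      set T := (M.slab 0 b).tau (M.o, 0) with hT
      set z := M.lact y s with hz
      set Z := (T (en M.lact z w)).reverse with hZ
      -- split everything
      have hy1 := htaue y hy
      have hz1 := htaue z hy'
      have hza : M.act y.1 s = z.1 := rfl
      have hc1 := q2 (g * pr M.cm (T y) * io M.cm s) z.1 (T z).reverse (by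
        have h := (r4 M.inv M.o (T z) (htau z)).1
        rw [hz1] at h
        exact h)
      rw [List.reverse_reverse] at hc1
      have hend : en M.act z.1 (T z).reverse = M.o := by
        have h := (r4 M.inv M.o (T z) (htau z)).2
        rw [hz1] at h
        exact h
      rw [q1 _ z.1, hend] at hc1
      simp only [List.append_assoc, List.singleton_append, List.cons_append, List.nil_append]
      rw [q1 g M.o (T y), q1 g M.o (T y), hy1]
      have hcs : ∀ v : List S, psum M lm (g * pr M.cm (T y)) y.1 (s :: v) =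
        psum M lm (g * pr M.cm (T y)) y.1 [s] +
          psum M lm (g * pr M.cm (T y) * io M.cm s) z.1 v := by
        intro v
        have := q1 (g * pr M.cm (T y)) y.1 [s] v
        rw [p2, p1, mul_one] at this
        exact this
      rw [hcs, hcs (w ++ Z)]
      rw [q1 _ M.o (T z), hz1]
      have hg1 : g * (pr M.cm (T y) * io M.cm s * (pr M.cm (T z))⁻¹) =
        g * pr M.cm (T y) * io M.cm s * pr M.cm (T z).reverse := by
        rw [p6]; group
      rw [hg1]
      have hg2 : g * pr M.cm (T y) * io M.cm s * pr M.cm (T z).reverse * pr M.cm (T z) =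
        g * pr M.cm (T y) * io M.cm s := by
        rw [p6]; group
      rw [hg2]
      linarith
  · intro y s g h
    rw [e3]
    exact if_neg h

end Pool.Agent.H14.PD
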